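import Mathlib
import Pool.Agent.Lib.MP_8f66f0_al_ChernS.IntCls
import Pool.Agent.Lib.MP_8f66f0_al_Mixed.RootB
import Pool.Agent.Lib.MP_8f66f0_al_Mixed.TF

/-! # Divisibility for mixed cocycles at a class with few roots. -/

set_option autoImplicit false
set_option linter.unusedSectionVars false
set_option linter.unusedVariables false

namespace Pool.Agent.Lib.MP_8f66f0_al_Stab

open Pool.Agent.Lib.MP_8f66f0_al_FinQ Pool.Agent.Lib.MP_8f66f0_al_Uni
  Pool.Agent.Lib.MP_8f66f0_al_ChernS Pool.Agent.Lib.MP_8f66f0_al_Mixed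

variable {Γ : Type*} [Group Γ] {n k : ℕ}

/-- The sum of `FM` over the words of length `2 Q` is `- 2 mixedChern` modulo `Q`. -/
theorem wsum_FM_mod {b : Γ → List Γ → ℤ} (hb : IsMixed k b)
    (A B : Matrix (Fin n) (Fin n) (MonoidAlgebra ℤ Γ)) (hAB : A * B = 1) (hBA : B * A = 1)
    (Q : ℕ) (hQ : 0 < Q) :
    ((Q : ℕ) : ℤ) ∣ wsum B A Q (FM k b Q) + 2 * mixedChern k A B b := by
  rw [wsum_FM hb A B hAB hBA Q hQ, ← mul_add]
  refine Dvd.dvd.mul_left ?_ 2
  unfold mixedChern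
  rw [← Finset.sum_add_distrib]
  refine Finset.dvd_sum fun m hm => ?_
  have h7 := intCls_descFactorial Q m hQ
  have h10 : GG k m * ((Q - 1).descFactorial m : ℤ) * chern m A B b +
      (m.factorial : ℤ) * (∏ j ∈ Finset.Ico (m + 1) k, (2 * (j : ℤ) + 1)) * chern m A B b =
      (((Q - 1).descFactorial m : ℤ) - (-1) ^ m * (m.factorial : ℤ)) *
        (GG k m * chern m A B b) := by
    unfold GG
    have h11 : ((-1 : ℤ) ^ m) * (-1) ^ (m + 1) = -1 := by
      rw [← pow_add]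
      exact Odd.neg_one_pow ⟨m, by ring⟩
    linear_combination ((m.factorial : ℤ) *
      (∏ j ∈ Finset.Ico (m + 1) k, (2 * (j : ℤ) + 1)) * chern m A B b) * h11
  rw [h10]
  exact h7.mul_right _

/-- Mixed cocycles with `b (c; []) = 0` at a class. -/
theorem mixQ_dvd {b : Γ → List Γ → ℤ} (hb : IsMixed k b) (hk : 0 < k) (hb0 : ∀ c, b c [] = 0)
    (A B : Matrix (Fin n) (Fin n) (MonoidAlgebra ℤ Γ)) (hAB : A * B = 1) (hBA : B * A = 1)
    (T : Set Γ) (hB : ∀ i j g, (B i j).coeff g ≠ 0 → g ∈ T)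
    (hA : ∀ i j g, (A i j).coeff g ≠ 0 → g ∈ T)
    {p : ℕ} (hp : p.Prime) (K j : ℕ) (hK : 0 < K) (c0 : Γ)
    (hc : ∀ l, l < K → ∀ y : List Γ, y.length = p ^ l →
      (∀ g ∈ y, ∃ a ∈ T, ∃ b ∈ T, g = a * b) → ¬ IsConj c0 (y.prod ^ p ^ (K + j - l)))
    (hsupp : ∀ c u, ¬ IsConj c0 c → b c u = 0) :
    ((p ^ K : ℕ) : ℤ) ∣ 2 * mixedChern k A B b := by
  have hQpos : 0 < p ^ (K + j) := pow_pos hp.pos _
  have hdiv : p ^ K ∣ p ^ (K + j) := pow_dvd_pow p (Nat.le_add_right K j)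
  obtain ⟨θ, hθ⟩ := exists_ph (fun x : List Γ => x.rotate 1)
    (fun x => x.length = p ^ (K + j) ∧ (IsConj c0 x.prod ∧ ∀ i, x.rotate i = x → p ^ K ∣ i))
    (p ^ (K + j)) (p ^ K) hQpos (pow_pos hp.pos _) hdiv
    (fun x hx => ⟨by rw [List.length_rotate]; exact hx.1,
      hx.2.1.trans (phase_isConj_rotate x 1), fun i hi => hx.2.2 i
        ((classQ_rotate_iff 1 x i).1 hi)⟩)
    (fun x hx => by
      rw [classQ_iter, one_mul, ← hx.1, List.rotate_length])
    (fun x hx i hi => by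
      rw [classQ_iter, one_mul] at hi
      exact hx.2.2 i hi)
  obtain ⟨Θ, hΘ⟩ := exists_ph (fun x : List Γ => x.rotate 2)
    (fun e => e.length = 2 * p ^ (K + j) ∧
      (IsConj c0 e.prod ∧ ∀ i, e.rotate (2 * i) = e → p ^ K ∣ i))
    (p ^ (K + j)) (p ^ K) hQpos (pow_pos hp.pos _) hdiv
    (fun x hx => ⟨by rw [List.length_rotate]; exact hx.1,
      hx.2.1.trans (phase_isConj_rotate x 2), fun i hi => hx.2.2 i
        ((classQ_rotate_iff 2 x (2 * i)).1 hi)⟩)
    (fun x hx => by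
      rw [classQ_iter, ← hx.1, List.rotate_length])
    (fun x hx i hi => by
      rw [classQ_iter] at hi
      exact hx.2.2 i hi)
  -- words with letters in `T`
  have hgood : ∀ x : List Γ, x.length = p ^ (K + j) → (∀ g ∈ x, ∃ a ∈ T, ∃ b ∈ T, g = a * b) →
      IsConj c0 x.prod → ∀ i, x.rotate i = x → p ^ K ∣ i := by
    intro x hx hxT hxc i hi
    by_contra hpi
    obtain ⟨l, hl, hl1, hl2⟩ := stab_pow hp j K x hx i hi hpi
    refine hc l hl _ hl1 (fun g hg => hxT g (List.mem_of_mem_take hg)) ?_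
    rw [← hl2]
    exact hxc
  have hcore := core A B hAB hBA (p ^ (K + j)) (p ^ K) (p ^ j) (pow_pos hp.pos _)
    (pow_pos hp.pos _) (pow_add p K j) T hB hA (epsM k b) (FM k b (p ^ (K + j)))
    (fun x hx => by
      have hx0 : x ≠ [] := by
        rintro rfl
        rw [List.length_nil] at hx
        omega
      have := epsM_sum hb hk x hx0
      rw [hx, hb0, mul_zero, mul_zero] at this
      exact this)
    (fun e he => FM_diff hb _ hQpos e he)
    (fun x => IsConj c0 x.prod ∧ ∀ i, x.rotate i = x → p ^ K ∣ i)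
    (fun e => IsConj c0 e.prod ∧ ∀ i, e.rotate (2 * i) = e → p ^ K ∣ i) θ Θ
    (fun x _ hx => ⟨hx.1.trans (phase_isConj_rotate x 1), fun i hi => hx.2 i
      ((classQ_rotate_iff 1 x i).1 hi)⟩)
    (fun e _ he => ⟨he.1.trans (phase_isConj_rotate e 2), fun i hi => he.2 i
      ((classQ_rotate_iff 2 e (2 * i)).1 hi)⟩)
    hθ hΘ
    (fun x hx hxT hX => by
      by_cases h : IsConj c0 x.prod
      · exact absurd ⟨h, hgood x hx hxT h⟩ hX
      · unfold epsM
        rw [Finset.sum_eq_zero, mul_zero]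
        intro m _
        rw [classQ_Lc_zero _ (fun u => hsupp _ u h) _, mul_zero])
    (fun e he heT hY => by
      by_cases h : IsConj c0 e.prod
      · refine absurd ⟨h, fun i hi => ?_⟩ hY
        refine hgood (d0 e) (MP_8f66f0_al_ChernS.length_d0 _ e he) (core_mem_d0 _ e he heT)
          (by rw [MP_8f66f0_al_ChernS.prod_d0 _ e he]; exact h) i ?_
        rw [← d0_rotate _ e he i, hi]
      · unfold FM
        refine Finset.sum_eq_zero fun m _ => ?_
        rw [classQ_Lc_zero _ (fun u => hsupp _ u h) _, mul_zero])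
    (by
      rintro ⟨-, h⟩
      have h1 := h 1 (List.rotate_replicate _ _ _)
      rw [Nat.dvd_one] at h1
      exact absurd h1 (Nat.one_lt_pow hK.ne' hp.one_lt).ne')
    (by
      rintro e he heT ⟨h1, h2⟩
      rw [MP_8f66f0_al_ChernS.prod_d0 _ e he] at h1
      refine ⟨h1, fun i hi => h2 i ?_⟩
      rw [← d0_rotate _ e he i, hi])
    (by
      rintro e he heT ⟨h1, h2⟩
      have he1 : (e.rotate 1).length = 2 * p ^ (K + j) := by rw [List.length_rotate, he]
      rw [MP_8f66f0_al_ChernS.prod_d0 _ _ he1] at h1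
      refine ⟨h1.trans (phase_isConj_rotate e 1).symm, fun i hi => h2 i ?_⟩
      rw [← d0_rotate _ _ he1 i, (classQ_rotate_iff 1 e (2 * i)).2 hi])
  have h5 : ((p ^ (K + j) : ℕ) : ℤ) = ((p ^ j : ℕ) : ℤ) * ((p ^ K : ℕ) : ℤ) := by
    rw [pow_add]
    push_cast
    ring
  rw [h5] at hcore
  have h6 : ((p ^ K : ℕ) : ℤ) ∣ wsum B A (p ^ (K + j)) (FM k b (p ^ (K + j))) :=
    Int.dvd_of_mul_dvd_mul_left (by exact_mod_cast (pow_pos hp.pos j).ne') hcore
  have h7 := wsum_FM_mod hb A B hAB hBA (p ^ (K + j)) hQpos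
  have h8 : ((p ^ K : ℕ) : ℤ) ∣ ((p ^ (K + j) : ℕ) : ℤ) := by
    exact_mod_cast pow_dvd_pow p (Nat.le_add_right K j)
  exact (dvd_add_right h6).1 (h8.trans h7)

end Pool.Agent.Lib.MP_8f66f0_al_Stab
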