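import Mathlib
import Pool.Agent.Lib.MP_8f66f0_al_Mixed.RootC

/-! # The cocycle on the `p`-th powers, for cocycles with support on elements with unique roots of
their `p`-th powers. -/

set_option autoImplicit false
set_option linter.unusedSectionVars false
set_option linter.unusedVariables false

namespace Pool.Agent.Lib.MP_8f66f0_al_Stab

open Pool.Agent.Lib.MP_8f66f0_al_FinQ Pool.Agent.Lib.MP_8f66f0_al_Uni
  Pool.Agent.Lib.MP_8f66f0_al_ChernS Pool.Agent.Lib.MP_8f66f0_al_Mixed

variable {Γ : Type*} [Group Γ] {k : ℕ} {b : Γ → List Γ → ℤ}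

/-- `lift k p b` is given by `b` on the `p`-th powers. -/
def LiftOK (k p : ℕ) (b : Γ → List Γ → ℤ) : Prop :=
  ∀ (w : Γ) (u : List Γ), lift k p b (w ^ p) u = (p : ℤ) ^ (k - u.length / 2) * b w u

theorem liftOK_of_roots {p : ℕ} (hroot : ∀ v : Γ, (∃ u, b v u ≠ 0) → ∀ x : Γ, x ^ p = v ^ p → x = v) :
    LiftOK k p b := by
  intro w u
  have h : ∃ w' : Γ, w' ^ p = w ^ p := ⟨w, rfl⟩
  unfold lift
  rw [dif_pos h]
  by_cases hw : ∃ u, b w u ≠ 0
  · rw [hroot w hw _ h.choose_spec]
  · by_cases hw' : ∃ u, b h.choose u ≠ 0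
    · have h1 : w = h.choose := hroot _ hw' w h.choose_spec.symm
      exact absurd (by rw [h1]; exact hw') hw
    · push Not at hw hw'
      rw [hw, hw']

/-- PROOF. `mixed`: `b w (w^p a :: u) = b w (a :: u) - p Σ (-1)^i b w (u without i)` (induction), for `|u|` odd and `|u| < 2k`:
`k - (|u| + 1)/2 + 1 = k - (|u| - 1)/2`. -/
theorem liftL_mixed {p : ℕ} (hp : 0 < p) (hroot : LiftOK k p b)
    (hb : IsMixed k b) : IsMixed k (lift k p b) where
  len c u hu := by
    by_cases h : ∃ w : Γ, w ^ p = c
    · obtain ⟨w, rfl⟩ := h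
      rw [hroot, hb.len w u hu, mul_zero]
    · exact rootA_not h u
  odd c u hu := by
    by_cases h : ∃ w : Γ, w ^ p = c
    · obtain ⟨w, rfl⟩ := h
      rw [hroot, hb.odd w u hu, mul_zero]
    · exact rootA_not h u
  equivariant x c u := by
    by_cases h : ∃ w : Γ, w ^ p = c
    · obtain ⟨w, rfl⟩ := h
      rw [← conj_pow, hroot, hroot, hb.equivariant, List.length_map]
    · have h' : ¬ ∃ w : Γ, w ^ p = x * c * x⁻¹ := by
        rintro ⟨w, hw⟩
        refine h ⟨x⁻¹ * w * x, ?_⟩
        have := conj_pow (i := p) (a := x⁻¹) (b := w)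
        rw [inv_inv] at this
        rw [this, hw]
        group
      rw [rootA_not h, rootA_not h']
  alternating c u a a' v := by
    by_cases h : ∃ w : Γ, w ^ p = c
    · obtain ⟨w, rfl⟩ := h
      rw [hroot, hroot, hb.alternating w u a a' v]
      simp only [List.length_append, List.length_cons]
      ring
    · rw [rootA_not h, rootA_not h, neg_zero]
  diag c u a v := by
    by_cases h : ∃ w : Γ, w ^ p = c
    · obtain ⟨w, rfl⟩ := h
      rw [hroot, hb.diag, mul_zero]
    · exact rootA_not h _
  mixed c a u := by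
    by_cases h : ∃ w : Γ, w ^ p = c
    · obtain ⟨w, rfl⟩ := h
      have h1 : ∑ i ∈ Finset.range u.length, (-1) ^ i * lift k p b (w ^ p) (u.eraseIdx i) =
          (p : ℤ) ^ (k - (u.length - 1) / 2) *
            ∑ i ∈ Finset.range u.length, (-1) ^ i * b w (u.eraseIdx i) := by
        rw [Finset.mul_sum]
        refine Finset.sum_congr rfl fun i hi => ?_
        rw [hroot, List.length_eraseIdx_of_lt (Finset.mem_range.1 hi)]
        ring
      rw [h1, hroot, hroot, rootA_mixed hb, List.length_cons, List.length_cons,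
        mul_sub]
      congr 1
      by_cases hodd : Odd u.length
      · by_cases hlt : u.length < 2 * k
        · obtain ⟨m, hm⟩ := hodd
          have h2 : k - (u.length - 1) / 2 = (k - (u.length + 1) / 2) + 1 := by
            omega
          rw [h2, pow_succ]
          ring
        · have h3 := hb.mixed w a u
          rw [hb.len w _ (by rw [List.length_cons]; omega),
            hb.len w _ (by rw [List.length_cons]; omega), zero_sub] at h3
          rw [neg_eq_zero.1 h3.symm]
          ring
      · have h4 : ∑ i ∈ Finset.range u.length, (-1) ^ i * b w (u.eraseIdx i) = 0 := by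
          refine Finset.sum_eq_zero fun i hi => ?_
          have hi' := Finset.mem_range.1 hi
          rw [hb.odd w _ ?_, mul_zero]
          rw [List.length_eraseIdx_of_lt hi']
          rw [Nat.not_odd_iff_even] at hodd
          obtain ⟨m, hm⟩ := hodd
          exact ⟨m - 1, by omega⟩
        rw [h4]
        ring
    · rw [rootA_not h, rootA_not h]
      rw [Finset.sum_eq_zero fun i _ => by rw [rootA_not h, mul_zero], sub_zero]

theorem rootL_Lc {p : ℕ} (hroot : LiftOK k p b) (w : Γ) (d : ℕ)
    (z : MonoidAlgebra ℤ (FreeMonoid Γ)) (hz : z ∈ rootC_H Γ d) :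
    Lc (lift k p b) (w ^ p) z = (p : ℤ) ^ (k - d / 2) * Lc b w z := by
  induction hz using AddSubgroup.closure_induction with
  | mem z hz =>
    obtain ⟨u, a, hu, rfl⟩ := hz
    unfold Lc
    rw [lin_single, lin_single, hroot, hu]
    ring
  | zero => rw [map_zero, map_zero, mul_zero]
  | add z z' _ _ hz hz' => rw [map_add, map_add, hz, hz', mul_add]
  | neg z _ hz => rw [map_neg, map_neg, hz, mul_neg]

/-- PROOF. `vx (repeated e) = vx e`, `(repeated e).prod = e.prod ^ p`; on words of length `2m+2` the functional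
`lift k p b (w^p)` is `p^(k-m-1) b w`; `exG_repeat` in the mixed ring at `e.prod`. -/
theorem FM_repeatL {p : ℕ} (hp : 0 < p) (hroot : LiftOK k p b)
    (hb : IsMixed k b) (Q : ℕ) (hQ : 0 < Q) (e : List Γ) (he : e.length = 2 * Q) :
    FM k (lift k p b) (p * Q) (List.replicate p e).flatten = (p : ℤ) ^ (k - 1) * FM k b Q e := by
  have he0 : 0 < e.length := by omega
  have hne : e ≠ [] := List.length_pos_iff.1 he0
  unfold FM
  rw [Finset.mul_sum]
  refine Finset.sum_congr rfl fun m hmk => ?_
  have hmk' : m < k := Finset.mem_range.1 hmk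
  rw [rootC_prod]
  have hvx : (fun j => (nn (vx (List.replicate p e).flatten j) : MonoidAlgebra ℤ (FreeMonoid Γ))) =
      fun j => nn (vx e j) := by
    funext j
    rw [rootC_vx hp e he0]
  rw [hvx]
  rw [rootL_Lc hroot e.prod (2 * m + 2) _ (rootC_exG (rootC_H Γ) rootC_H_one rootC_H_mul _
    (fun j => rootC_H_nn _) m (p * Q))]
  obtain ⟨K, _, f, α, D, L, ρ, deg, SS⟩ := exists_sup hb e.prod
  have h1 : Lc b e.prod (exG m (p * Q) fun j => nn (vx e j)) =
      (p : ℤ) ^ m * Lc b e.prod (exG m Q fun j => nn (vx e j)) := by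
    rw [← SS.L_f, ← SS.L_f, rootC_map_exG, rootC_map_exG]
    rw [exG_repeat (fun j => f (nn (vx e j))) ρ (fun i j => SS.anti _ _) (fun i => SS.sq _) Q p hQ hp
      (fun j => by rw [← he, vx_add e hne j, SS.period]) m]
    have h2 : ((p : K) ^ m * exG m Q fun j => f (nn (vx e j))) =
        (p ^ m : ℕ) • exG m Q fun j => f (nn (vx e j)) := by
      rw [nsmul_eq_mul, Nat.cast_pow]
    rw [h2, map_nsmul, nsmul_eq_mul, Nat.cast_pow]
  rw [h1]
  have h3 : k - (2 * m + 2) / 2 + m = k - 1 := by omega
  rw [← h3, pow_add]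
  ring

end Pool.Agent.Lib.MP_8f66f0_al_Stab
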