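import Mathlib
import Pool.Agent.Lib.MP_8f66f0_al_Mixed.Final
import Pool.Agent.Lib.MP_8f66f0_al_Stab.MixQ
import Pool.Agent.Lib.MP_8f66f0_al_Stab.RootL

/-! # The congruence between the classes of `v` and of `v ^ p`. -/

set_option autoImplicit false
set_option linter.unusedSectionVars false
set_option linter.unusedVariables false

namespace Pool.Agent.Lib.MP_8f66f0_al_Stab

open Pool.Agent.Lib.MP_8f66f0_al_FinQ Pool.Agent.Lib.MP_8f66f0_al_Uni
  Pool.Agent.Lib.MP_8f66f0_al_ChernS Pool.Agent.Lib.MP_8f66f0_al_Mixed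

variable {Γ : Type*} [Group Γ] {n k : ℕ}

/-- The value of a mixed cocycle at an `l`-th power. -/
theorem nil_dvd {b : Γ → List Γ → ℤ} (hb : IsMixed k b) (hk : 0 < k) (v : Γ) (l : ℕ) (hl : 0 < l) :
    (l : ℤ) ∣ 2 * (GG k 0 * b (v ^ l) []) := by
  have hx : List.replicate l v ≠ [] := by
    intro h
    rw [List.replicate_eq_nil_iff] at h
    omega
  have h := epsM_sum hb hk (List.replicate l v) hx
  rw [List.prod_replicate, List.length_replicate] at h
  rw [← h]
  have h2 : ∀ t ∈ Finset.range l, epsM k b ((List.replicate l v).rotate t) =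
      epsM k b (List.replicate l v) := by
    intro t _
    rw [List.rotate_replicate]
  rw [Finset.sum_congr rfl h2, Finset.sum_const, Finset.card_range, nsmul_eq_mul]
  exact dvd_mul_right _ _

/-- One prime. -/
theorem step (A B : Matrix (Fin n) (Fin n) (MonoidAlgebra ℤ Γ)) (hAB : A * B = 1)
    (hBA : B * A = 1) (hk : 0 < k) {b : Γ → List Γ → ℤ} (hb : IsMixed k b)
    (hb1 : ∀ u, b 1 u = 0) {p : ℕ} (hp : p.Prime) (hodd : Odd p) (hL : LiftOK k p b) :
    (p : ℤ) ^ k ∣ 2 * mixedChern k A B (lift k p b) -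
      (p : ℤ) ^ (k - 1) * (2 * mixedChern k A B b) := by
  have hpk : 0 < p ^ k := pow_pos hp.pos k
  have hpk1 : 0 < p ^ (k - 1) := pow_pos hp.pos _
  have hpp : p * p ^ (k - 1) = p ^ k := by
    rw [← pow_succ', Nat.sub_add_cancel hk]
  have hb'' : IsMixed k (lift k p b) := liftL_mixed hp.pos hL hb
  have hlift1 : ∀ u, lift k p b 1 u = 0 := by
    intro u
    have h1 := hL (1 : Γ) u
    rw [one_pow] at h1
    rw [h1, hb1, mul_zero]
  have P1 : ∀ x : List Γ, x.length = p ^ k →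
      ((p : ℤ) ^ k) ∣ ∑ t ∈ Finset.range (p ^ k), epsM k (lift k p b) (x.rotate t) := by
    intro x hx
    have hx0 : x ≠ [] := by
      rintro rfl
      rw [List.length_nil] at hx
      omega
    have h1 := epsM_sum hb'' hk x hx0
    rw [hx] at h1
    rw [h1]
    exact ((final_lift_nil k p b _).mul_left _).mul_left _
  have P2 : ∀ e : List Γ, e.length = 2 * p ^ k →
      FM k (lift k p b) (p ^ k) (e.rotate 2) - FM k (lift k p b) (p ^ k) e =
        epsM k (lift k p b) (d0 (e.rotate 1)) - epsM k (lift k p b) (d0 e) :=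
    fun e he => FM_diff hb'' (p ^ k) hpk e he
  have h1 : epsM k (lift k p b) (List.replicate (p ^ k) 1) = 0 := by
    unfold epsM
    rw [List.prod_replicate, one_pow, Finset.sum_eq_zero, mul_zero]
    intro m _
    rw [final_Lc_zero _ _ hlift1, mul_zero]
  have key := coreM A B hAB hBA p k hp hodd hk _ _ P1 P2 h1
  have h3 : wsum B A (p ^ (k - 1)) (fun f => FM k (lift k p b) (p ^ k) (List.replicate p f).flatten) =
      (p : ℤ) ^ (k - 1) * wsum B A (p ^ (k - 1)) (FM k b (p ^ (k - 1))) := by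
    rw [← wsum_smul]
    refine wsum_congr B A _ fun w hw => ?_
    rw [← hpp]
    exact FM_repeatL hp.pos hL hb (p ^ (k - 1)) hpk1 w hw
  rw [h3] at key
  have h4 := wsum_FM_mod hb'' A B hAB hBA (p ^ k) hpk
  rw [Nat.cast_pow] at h4
  have h5 : (p : ℤ) ∣ wsum B A (p ^ (k - 1)) (FM k b (p ^ (k - 1))) + 2 * mixedChern k A B b := by
    rcases Nat.eq_or_lt_of_le (Nat.succ_le_of_lt hk) with h8 | h8
    · have hk1 : k = 1 := h8.symm
      subst hk1
      rw [wsum_FM hb A B hAB hBA _ hpk1]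
      unfold mixedChern GG
      simp
    · refine dvd_trans ?_ (wsum_FM_mod hb A B hAB hBA (p ^ (k - 1)) hpk1)
      rw [Nat.cast_pow]
      exact dvd_pow_self _ (by omega)
  have h6 : (p : ℤ) ^ k ∣ (p : ℤ) ^ (k - 1) *
      (wsum B A (p ^ (k - 1)) (FM k b (p ^ (k - 1))) + 2 * mixedChern k A B b) := by
    have h7 : (p : ℤ) ^ k = (p : ℤ) ^ (k - 1) * p := by
      rw [← pow_succ, Nat.sub_add_cancel hk]
    rw [h7]
    exact mul_dvd_mul_left _ h5
  have h8 : 2 * mixedChern k A B (lift k p b) - (p : ℤ) ^ (k - 1) * (2 * mixedChern k A B b) =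
      (wsum B A (p ^ k) (FM k (lift k p b) (p ^ k)) + 2 * mixedChern k A B (lift k p b)) -
      (wsum B A (p ^ k) (FM k (lift k p b) (p ^ k)) -
        (p : ℤ) ^ (k - 1) * wsum B A (p ^ (k - 1)) (FM k b (p ^ (k - 1)))) -
      (p : ℤ) ^ (k - 1) *
        (wsum B A (p ^ (k - 1)) (FM k b (p ^ (k - 1))) + 2 * mixedChern k A B b) := by
    ring
  rw [h8]
  exact dvd_sub (dvd_sub h4 key) h6

end Pool.Agent.Lib.MP_8f66f0_al_Stab
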