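import Mathlib
import Pool.Agent.Lib.MP_8f66f0_al_ChernS.Main
import Pool.Agent.Lib.MP_8f66f0_al_Stab.Step

/-! # Vanishing at a class with `b (c; []) ≠ 0` whose centralizer is that of infinitely many of its
prime powers. -/

set_option autoImplicit false
set_option linter.unusedSectionVars false
set_option linter.unusedVariables false

namespace Pool.Agent.Lib.MP_8f66f0_al_Stab

open Pool.Agent.Lib.MP_8f66f0_al_FinQ Pool.Agent.Lib.MP_8f66f0_al_Uni
  Pool.Agent.Lib.MP_8f66f0_al_ChernS Pool.Agent.Lib.MP_8f66f0_al_Mixed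

variable {G : Type*} [Group G] {n k : ℕ}

theorem mixedChern_lin (A B : Matrix (Fin n) (Fin n) (MonoidAlgebra ℤ G)) (x y : ℤ)
    (b b' : G → List G → ℤ) :
    mixedChern k A B (fun c u => x * b c u + y * b' c u) =
      x * mixedChern k A B b + y * mixedChern k A B b' := by
  have h : ∀ m, chern m A B (fun c u => x * b c u + y * b' c u) =
      x * chern m A B b + y * chern m A B b' := by
    intro m
    unfold chern
    rw [← wsum_smul, ← wsum_smul, ← wsum_add]
  unfold mixedChern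
  rw [Finset.mul_sum, Finset.mul_sum, ← Finset.sum_add_distrib]
  refine Finset.sum_congr rfl fun m _ => ?_
  rw [h]
  ring

theorem isMixed_lin {b b' : G → List G → ℤ} (hb : IsMixed k b) (hb' : IsMixed k b') (x y : ℤ) :
    IsMixed k (fun c u => x * b c u + y * b' c u) where
  len c u hu := by
    rw [hb.len c u hu, hb'.len c u hu]
    ring
  odd c u hu := by
    rw [hb.odd c u hu, hb'.odd c u hu]
    ring
  equivariant z c u := by
    rw [hb.equivariant, hb'.equivariant]
  alternating c u a a' v := by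
    rw [hb.alternating, hb'.alternating]
    ring
  diag c u a v := by
    rw [hb.diag, hb'.diag]
    ring
  mixed c a u := by
    rw [hb.mixed, hb'.mixed]
    have h : ∑ i ∈ Finset.range u.length, (-1) ^ i *
        (x * b c (u.eraseIdx i) + y * b' c (u.eraseIdx i)) =
        x * ∑ i ∈ Finset.range u.length, (-1) ^ i * b c (u.eraseIdx i) +
        y * ∑ i ∈ Finset.range u.length, (-1) ^ i * b' c (u.eraseIdx i) := by
      rw [Finset.mul_sum, Finset.mul_sum, ← Finset.sum_add_distrib]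
      refine Finset.sum_congr rfl fun i _ => ?_
      ring
    rw [h]
    ring

theorem conj_nil {b : G → List G → ℤ} (hb : IsMixed k b) {c c' : G} (h : IsConj c c') :
    b c' [] = b c [] := by
  obtain ⟨x, rfl⟩ := isConj_iff.1 h
  exact hb.equivariant x c []

/-- Unique roots of `c0 ^ p` in the class of `c0`. -/
theorem liftOK_class (htf : ∀ g : G, ∀ m : ℕ, 0 < m → g ^ m = 1 → g = 1)
    {b : G → List G → ℤ} (c0 : G) (hsupp : ∀ c u, ¬ IsConj c0 c → b c u = 0) {p : ℕ}
    (hp : p.Prime) (hS : ∀ x : G, x * c0 ^ p = c0 ^ p * x → x * c0 = c0 * x) : LiftOK k p b := by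
  refine liftOK_of_roots fun v hv x hx => ?_
  have hc : IsConj c0 v := by
    by_contra h
    obtain ⟨u, hu⟩ := hv
    exact hu (hsupp v u h)
  obtain ⟨g, rfl⟩ := isConj_iff.1 hc
  have h1 : (g⁻¹ * x * g) ^ p = c0 ^ p := by
    have h2 := conj_pow (i := p) (a := g⁻¹) (b := x)
    rw [inv_inv] at h2
    rw [h2, hx, conj_pow]
    group
  set y := g⁻¹ * x * g with hy
  have h2 : y * c0 = c0 * y := by
    apply hS
    rw [← h1, ← pow_succ', ← pow_succ]
  have h3 : (y * c0⁻¹) ^ p = 1 := by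
    have h4 : Commute y c0⁻¹ := Commute.inv_right h2
    rw [h4.mul_pow, h1, inv_pow, mul_inv_cancel]
  have h4 := htf _ p hp.pos h3
  have h5 : y = c0 := mul_inv_eq_one.1 h4
  rw [← h5, hy]
  group

/-- The support of the lifted cocycle. -/
theorem lift_supp {b : G → List G → ℤ} (c0 : G) (hsupp : ∀ c u, ¬ IsConj c0 c → b c u = 0) {p : ℕ}
    (c : G) (u : List G) (h : ¬ IsConj (c0 ^ p) c) : lift k p b c u = 0 := by
  unfold lift
  split_ifs with h1
  · rw [hsupp, mul_zero]
    intro h2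
    apply h
    have h3 := h2.pow p
    rwa [h1.choose_spec] at h3
  · rfl

/-- Vanishing of the pairing with a mixed cocycle with `b (c; []) = 0` at a class which has no
roots of order `l ^ i`. -/
theorem zero_of_no_roots {b : G → List G → ℤ} (hb : IsMixed k b) (hk : 0 < k)
    (hb0 : ∀ c, b c [] = 0)
    (A B : Matrix (Fin n) (Fin n) (MonoidAlgebra ℤ G)) (hAB : A * B = 1) (hBA : B * A = 1)
    (c0 : G) (hsupp : ∀ c u, ¬ IsConj c0 c → b c u = 0) {l : ℕ} (hl : l.Prime)
    (hc : ∀ y : G, ¬ IsConj c0 (y ^ l)) : mixedChern k A B b = 0 := by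
  have h : 2 * mixedChern k A B b = 0 := by
    refine intCls_zero hl _ fun K hK => ?_
    refine mixQ_dvd hb hk hb0 A B hAB hBA Set.univ (fun _ _ _ _ => Set.mem_univ _)
      (fun _ _ _ _ => Set.mem_univ _) hl K 0 hK c0 ?_ hsupp
    intro i hi y _ _ h1
    have h2 : l ^ (K + 0 - i) = l ^ (K - i - 1) * l := by
      rw [← pow_succ]
      congr 1
      omega
    rw [h2, pow_mul] at h1
    exact hc _ h1
  omega

/-- The main step. -/
theorem stable_zero (htf : ∀ g : G, ∀ m : ℕ, 0 < m → g ^ m = 1 → g = 1)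
    (A B : Matrix (Fin n) (Fin n) (MonoidAlgebra ℤ G)) (hAB : A * B = 1) (hBA : B * A = 1)
    (hk : 0 < k) {b : G → List G → ℤ} (hb : IsMixed k b) (c0 : G) (hc1 : c0 ≠ 1)
    (hsupp : ∀ c u, ¬ IsConj c0 c → b c u = 0) (hD : b c0 [] ≠ 0)
    (hS : {p : ℕ | p.Prime ∧ ∀ x : G, x * c0 ^ p = c0 ^ p * x → x * c0 = c0 * x}.Infinite) :
    mixedChern k A B b = 0 := by
  classical
  by_contra hX
  set X : ℤ := mixedChern k A B b with hXdef
  set D : ℤ := b c0 [] with hDdef
  obtain ⟨T, hT, hTB, hTA⟩ := exists_T A B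
  have hb1 : ∀ u, b 1 u = 0 := fun u => hsupp 1 u (fun h => hc1 (isConj_one_left.1 h))
  -- a prime which is large enough does not divide `2 X`
  have hlarge : ∀ p : ℕ, (2 * X).natAbs < p → ¬ (p : ℤ) ∣ 2 * X := by
    intro p hp h
    have h0 : 2 * X = 0 := by
      refine Int.eq_zero_of_abs_lt_dvd h ?_
      rw [Int.abs_eq_natAbs]
      exact_mod_cast hp
    omega
  -- the divisibility by `p ^ k` is impossible
  have hno : ∀ p : ℕ, p.Prime → Odd p → (2 * X).natAbs < p →
      (∀ x : G, x * c0 ^ p = c0 ^ p * x → x * c0 = c0 * x) →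
      ¬ (p : ℤ) ^ k ∣ 2 * mixedChern k A B (lift k p b) := by
    intro p hp hodd hpX hcen h
    have h1 := step A B hAB hBA hk hb hb1 hp hodd (liftOK_class htf c0 hsupp hp hcen)
    have h2 : (p : ℤ) ^ k ∣ (p : ℤ) ^ (k - 1) * (2 * X) := by
      have h3 := dvd_sub h h1
      rwa [sub_sub_cancel] at h3
    have h3 : (p : ℤ) ^ k = (p : ℤ) ^ (k - 1) * p := by
      rw [← pow_succ, Nat.sub_add_cancel hk]
    rw [h3] at h2
    have hpz : (p : ℤ) ≠ 0 := by exact_mod_cast hp.ne_zero
    exact hlarge p hpX ((mul_dvd_mul_iff_left (pow_ne_zero _ hpz)).1 h2)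
  -- the products of few letters
  have hWf : {w : List G | w.length ≤ 2 * k ∧ ∀ g ∈ w, g ∈ T}.Finite := by
    have h1 : {w : List G | w.length ≤ 2 * k ∧ ∀ g ∈ w, g ∈ T} ⊆
        ⋃ i ∈ Finset.range (2 * k + 1), {y : List G | y.length = i ∧ ∀ g ∈ y, g ∈ T} := by
      rintro w ⟨hw, hwT⟩
      simp only [Set.mem_iUnion]
      exact ⟨w.length, Finset.mem_range.2 (by omega), rfl, hwT⟩
    exact (Set.Finite.biUnion (Finset.finite_toSet _) fun i _ => finite_lists T hT i).subset h1
  set W : Set G := List.prod '' {w : List G | w.length ≤ 2 * k ∧ ∀ g ∈ w, g ∈ T} with hW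
  have hWfin : W.Finite := hWf.image _
  set P : Set ℕ := {p : ℕ | p.Prime ∧ ∀ x : G, x * c0 ^ p = c0 ^ p * x → x * c0 = c0 * x} with hP
  set P' : Set ℕ := {p ∈ P | max 2 ((2 * X).natAbs) < p} with hP'
  have hP'inf : P'.Infinite := by
    intro hfin
    apply hS
    refine (hfin.union (Set.finite_Iic (max 2 ((2 * X).natAbs)))).subset ?_
    intro p hp
    by_cases h : max 2 ((2 * X).natAbs) < p
    · exact Or.inl ⟨hp, h⟩
    · exact Or.inr (not_lt.1 h)
  have hP'odd : ∀ p ∈ P', Odd p ∧ (2 * X).natAbs < p := by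
    intro p hp
    have h1 := hp.2
    rw [max_lt_iff] at h1
    exact ⟨hp.1.1.odd_of_ne_two (by omega), h1.2⟩
  have hword : ∀ p ∈ P', ∃ w ∈ W, IsConj (c0 ^ p) w := by
    intro p hp
    by_contra hcon
    push Not at hcon
    obtain ⟨hodd, hpX⟩ := hP'odd p hp
    apply hno p hp.1.1 hodd hpX hp.1.2
    have h0 : mixedChern k A B (lift k p b) = 0 := by
      unfold mixedChern
      refine Finset.sum_eq_zero fun m hm => ?_
      rw [final_lift_chern A B b (Finset.mem_range.1 hm) T hTB hTA ?_, mul_zero]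
      intro w hw hwT v hv u
      refine hsupp v u fun h => ?_
      refine hcon w.prod ⟨w, ⟨hw, hwT⟩, rfl⟩ ?_
      rw [← hv]
      exact h.pow p
    rw [h0, mul_zero]
    exact dvd_zero _
  -- pigeonhole
  obtain ⟨w, hw⟩ : ∃ w : G, {p ∈ P' | IsConj (c0 ^ p) w}.Infinite := by
    by_contra hcon
    push Not at hcon
    apply hP'inf
    refine (Set.Finite.biUnion hWfin fun w _ => hcon w).subset ?_
    intro p hp
    obtain ⟨w, hwW, hcw⟩ := hword p hp
    simp only [Set.mem_iUnion]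
    exact ⟨w, hwW, hp, hcw⟩
  obtain ⟨q, hq⟩ := hw.nonempty
  obtain ⟨p, hp, hqp⟩ := hw.exists_gt q
  have hpP := hp.1
  have hqP := hq.1
  obtain ⟨hpodd, hpX⟩ := hP'odd p hpP
  have hOKp : LiftOK k p b := liftOK_class htf c0 hsupp hpP.1.1 hpP.1.2
  have hOKq : LiftOK k q b := liftOK_class htf c0 hsupp hqP.1.1 hqP.1.2
  have hmp := liftL_mixed hpP.1.1.pos hOKp hb
  have hmq := liftL_mixed hqP.1.1.pos hOKq hb
  have hval : ∀ r : ℕ, LiftOK k r b → IsMixed k (lift k r b) → IsConj (c0 ^ r) w → ∀ c, IsConj w c →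
      lift k r b c [] = (r : ℤ) ^ k * D := by
    intro r hr hmr hwr c hc
    rw [conj_nil hmr (hwr.trans hc), hr]
    simp [hDdef]
  set ω : G → List G → ℤ := fun c u => (q : ℤ) ^ k * lift k p b c u +
    (-(p : ℤ) ^ k) * lift k q b c u with hω
  have hωm : IsMixed k ω := isMixed_lin hmp hmq _ _
  have hω0 : ∀ c, ω c [] = 0 := by
    intro c
    simp only [hω]
    by_cases hc : IsConj w c
    · rw [hval p hOKp hmp hp.2 c hc, hval q hOKq hmq hq.2 c hc]
      ring
    · rw [lift_supp c0 hsupp c [] (fun h => hc (hp.2.symm.trans h)),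
        lift_supp c0 hsupp c [] (fun h => hc (hq.2.symm.trans h))]
      ring
  have hωs : ∀ c u, ¬ IsConj w c → ω c u = 0 := by
    intro c u hc
    simp only [hω]
    rw [lift_supp c0 hsupp c u (fun h => hc (hp.2.symm.trans h)),
      lift_supp c0 hsupp c u (fun h => hc (hq.2.symm.trans h))]
    ring
  -- the value is not zero
  set E : ℤ := 2 * (GG k 0 * ((q : ℤ) ^ k * D)) with hE
  have hqz : (q : ℤ) ≠ 0 := by exact_mod_cast hqP.1.1.ne_zero
  have hE0 : E ≠ 0 := by
    have hG : GG k 0 ≠ 0 := by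
      unfold GG
      refine mul_ne_zero (pow_ne_zero _ (by norm_num)) (Finset.prod_ne_zero_iff.2 fun j _ => ?_)
      omega
    rw [hE]
    exact mul_ne_zero two_ne_zero (mul_ne_zero hG (mul_ne_zero (pow_ne_zero _ hqz) hD))
  obtain ⟨l, hlE, hl⟩ := Nat.exists_infinite_primes (E.natAbs + 1)
  have hωz : mixedChern k A B ω = 0 := by
    refine zero_of_no_roots hωm hk hω0 A B hAB hBA w hωs hl fun y hy => ?_
    have h1 := nil_dvd hmq hk y l hl.pos
    rw [hval q hOKq hmq hq.2 _ hy, ← hE] at h1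
    apply hE0
    refine Int.eq_zero_of_abs_lt_dvd h1 ?_
    rw [Int.abs_eq_natAbs]
    exact_mod_cast (by omega : E.natAbs < l)
  rw [hω, mixedChern_lin] at hωz
  have h1 : (p : ℤ) ^ k ∣ (q : ℤ) ^ k * mixedChern k A B (lift k p b) :=
    ⟨mixedChern k A B (lift k q b), by linear_combination hωz⟩
  have hcop : IsCoprime ((p : ℤ) ^ k) ((q : ℤ) ^ k) := by
    refine IsCoprime.pow ?_
    exact Nat.isCoprime_iff_coprime.2 ((Nat.coprime_primes hpP.1.1 hqP.1.1).2 hqp.ne')
  exact hno p hpP.1.1 hpodd hpX hpP.1.2 ((hcop.dvd_of_dvd_mul_left h1).mul_left 2)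

end Pool.Agent.Lib.MP_8f66f0_al_Stab
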