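import Pool.Agent.Lib.MP_8f66f0_al_Stab.TopS
import Pool.Agent.Lib.MP_8f66f0_al_Wreath.Lin

/-! # The conditions on the classes in linear groups

In a torsion-free linear group (over any field) all elements `c ≠ 1` satisfy the conditions
`StableCentralizer` and `FewRoots` of the theorem on the Chern character. -/

set_option autoImplicit false

namespace Pool.Agent.Lib.MP_8f66f0_al_Stab

open Pool.Agent.Lib.MP_8f66f0_al_ChernS Pool.Agent.Lib.MP_8f66f0_al_Uni
  Pool.Agent.Lib.MP_8f66f0_al_Wreath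

theorem linear_conditions {Γ : Type*} [Group Γ]
    (htf : ∀ g : Γ, ∀ n : ℕ, 0 < n → g ^ n = 1 → g = 1) {F : Type*} [Field F] {m : ℕ}
    (ρ : Γ →* Matrix.GeneralLinearGroup (Fin m) F) (hρ : Function.Injective ρ) (c : Γ)
    (hc : c ≠ 1) : StableCentralizer c ∧ FewRoots c := by
  have hPS : ∀ H : Subgroup Γ, H.FG → PowerSep H := by
    intro H hH
    have : Group.FG H := (Group.fg_iff_subgroup_fg H).mpr hH
    exact powerSep_of_linear (ρ.comp H.subtype) (hρ.comp (Subgroup.subtype_injective H))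
  refine ⟨fun H hH hcH => ?_, fun H hH hcH v hv => ?_⟩
  · obtain ⟨⟨N, hN⟩, -⟩ := hPS H hH
    refine Set.infinite_of_forall_exists_gt fun a => ?_
    obtain ⟨p, hp1, hp⟩ := Nat.exists_infinite_primes (max N a + 1)
    refine ⟨p, ⟨hp, fun x hx hxc => ?_⟩, by omega⟩
    have h1 : ((⟨x, hx⟩ : H) * ⟨c, hcH⟩ * (⟨x, hx⟩ : H)⁻¹) ^ p = (⟨c, hcH⟩ : H) ^ p := by
      rw [conj_pow]
      apply Subtype.ext
      push_cast
      rw [hxc, mul_assoc, mul_inv_cancel, mul_one]
    have h2 := hN p hp (by omega) _ _ h1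
    have h3 : x * c * x⁻¹ = c := congrArg Subtype.val h2
    calc x * c = x * c * x⁻¹ * x := by group
      _ = c * x := by rw [h3]
  · obtain ⟨-, h2⟩ := hPS H hH
    by_cases hv1 : v = 1
    · subst hv1
      refine Set.Finite.subset Set.finite_empty ?_
      rintro p ⟨hp, t, ht, h⟩
      apply hc
      rw [← h]
      group
    · have hvo : ∀ n : ℕ, 0 < n → (⟨v, hv⟩ : H) ^ n ≠ 1 := by
        intro n hn h
        exact hv1 (htf v n hn (congrArg Subtype.val h))
      refine (h2 ⟨c, hcH⟩ ⟨v, hv⟩ hvo).subset ?_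
      rintro p ⟨hp, t, ht, h⟩
      refine ⟨hp, isConj_iff.2 ⟨⟨t, ht⟩⁻¹, ?_⟩⟩
      apply Subtype.ext
      push_cast
      rw [← h]
      group

end Pool.Agent.Lib.MP_8f66f0_al_Stab
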