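import Mathlib
import Pool.Agent.Lib.MP_8f66f0_al_Mixed.Top
import Pool.Agent.Lib.MP_8f66f0_al_Stab.StableZero

/-! # The negative cyclic Chern character for torsion-free groups. -/

set_option autoImplicit false
set_option linter.unusedSectionVars false
set_option linter.unusedVariables false

namespace Pool.Agent.Lib.MP_8f66f0_al_Stab

open Pool.Agent.Lib.MP_8f66f0_al_FinQ Pool.Agent.Lib.MP_8f66f0_al_Uni
  Pool.Agent.Lib.MP_8f66f0_al_ChernS Pool.Agent.Lib.MP_8f66f0_al_Mixed

section local_zero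

variable {G : Type*} [Group G] {n k : ℕ}

/-- A class which is, for every `v`, conjugate to `v ^ p` for finitely many primes `p` only. -/
theorem fewRoots_zero {b : G → List G → ℤ} (hb : IsMixed k b) (hk : 0 < k)
    (hb0 : ∀ c, b c [] = 0)
    (A B : Matrix (Fin n) (Fin n) (MonoidAlgebra ℤ G)) (hAB : A * B = 1) (hBA : B * A = 1)
    (c0 : G) (hsupp : ∀ c u, ¬ IsConj c0 c → b c u = 0)
    (hc : ∀ v : G, {p : ℕ | p.Prime ∧ IsConj c0 (v ^ p)}.Finite) : mixedChern k A B b = 0 := by
  obtain ⟨T, hT, hTB, hTA⟩ := exists_T A B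
  have hE : (⋃ a ∈ hT.toFinset, ⋃ b ∈ hT.toFinset,
      {p : ℕ | p.Prime ∧ IsConj c0 ((a * b) ^ p)}).Finite := by
    refine Set.Finite.biUnion (Finset.finite_toSet _) fun a _ => ?_
    exact Set.Finite.biUnion (Finset.finite_toSet _) fun b _ => hc _
  obtain ⟨N, hN⟩ := hE.bddAbove
  obtain ⟨p, hpN, hp⟩ := Nat.exists_infinite_primes (N + (2 * mixedChern k A B b).natAbs + 1)
  have h : ((p ^ 1 : ℕ) : ℤ) ∣ 2 * mixedChern k A B b := by
    refine mixQ_dvd hb hk hb0 A B hAB hBA T hTB hTA hp 1 0 one_pos c0 ?_ hsupp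
    intro l hl y hy hyT h1
    have hl0 : l = 0 := by omega
    subst hl0
    rw [pow_zero] at hy
    obtain ⟨g, rfl⟩ := List.length_eq_one_iff.1 hy
    obtain ⟨a, ha, b, hb, hg⟩ := hyT g (by simp)
    rw [List.prod_singleton, hg] at h1
    have h2 : p ∈ (⋃ a ∈ hT.toFinset, ⋃ b ∈ hT.toFinset,
        {p : ℕ | p.Prime ∧ IsConj c0 ((a * b) ^ p)}) := by
      simp only [Set.mem_iUnion]
      refine ⟨a, hT.mem_toFinset.2 ha, b, hT.mem_toFinset.2 hb, hp, ?_⟩
      simpa using h1
    have h3 := hN h2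
    omega
  rw [pow_one] at h
  have h0 : 2 * mixedChern k A B b = 0 := by
    refine Int.eq_zero_of_abs_lt_dvd h ?_
    rw [Int.abs_eq_natAbs]
    exact_mod_cast (by omega : (2 * mixedChern k A B b).natAbs < p)
  omega

/-- A class which is, for every `v`, conjugate to `v ^ (p ^ i)` for finitely many `i` only. -/
theorem fewPowers_zero {b : G → List G → ℤ} (hb : IsMixed k b) (hk : 0 < k)
    (hb0 : ∀ c, b c [] = 0)
    (A B : Matrix (Fin n) (Fin n) (MonoidAlgebra ℤ G)) (hAB : A * B = 1) (hBA : B * A = 1)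
    (c0 : G) (hsupp : ∀ c u, ¬ IsConj c0 c → b c u = 0) {p : ℕ} (hp : p.Prime)
    (hc : ∀ v : G, {i : ℕ | IsConj c0 (v ^ p ^ i)}.Finite) : mixedChern k A B b = 0 := by
  obtain ⟨T, hT, hTB, hTA⟩ := exists_T A B
  have h : 2 * mixedChern k A B b = 0 := by
    refine intCls_zero hp _ fun K hK => ?_
    obtain ⟨j, hj⟩ := intCls_bound T hT c0 hc K
    exact mixQ_dvd hb hk hb0 A B hAB hBA T hTB hTA hp K j hK c0
      (fun l hl y hy hyT => hj l hl y hy hyT _ (by omega)) hsupp
  omega

end local_zero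

section main

variable {Γ : Type*} [Group Γ]

/-- In every finitely generated subgroup `H` containing `c` the centralizer of `c ^ p` is the
centralizer of `c` for infinitely many primes `p`. -/
def StableCentralizer (c : Γ) : Prop :=
  ∀ H : Subgroup Γ, H.FG → c ∈ H →
    {p : ℕ | p.Prime ∧ ∀ x ∈ H, x * c ^ p = c ^ p * x → x * c = c * x}.Infinite

theorem good_zero {G : Type*} [Group G] {n k : ℕ} (htf : ∀ g : G, ∀ m : ℕ, 0 < m → g ^ m = 1 → g = 1)
    (A B : Matrix (Fin n) (Fin n) (MonoidAlgebra ℤ G)) (hAB : A * B = 1) (hBA : B * A = 1)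
    {b : G → List G → ℤ} (hb : IsMixed k b)
    (hgood : ∀ c u, b c u ≠ 0 → c ≠ 1 ∧
      ((b c [] ≠ 0 ∧ {p : ℕ | p.Prime ∧ ∀ x : G, x * c ^ p = c ^ p * x → x * c = c * x}.Infinite) ∨
       (b c [] = 0 ∧ ((∀ v : G, {p : ℕ | p.Prime ∧ IsConj c (v ^ p)}.Finite) ∨
          ∃ p : ℕ, p.Prime ∧ ∀ v : G, {i : ℕ | IsConj c (v ^ p ^ i)}.Finite)))) :
    mixedChern k A B b = 0 := by
  rcases Nat.eq_zero_or_pos k with hk0 | hk
  · subst hk0
    unfold mixedChern
    simp
  refine final_split A B b fun c0 => ?_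
  by_cases hex : ∃ c u, IsConj c0 c ∧ b c u ≠ 0
  · obtain ⟨c, u, hcc, hne⟩ := hex
    have hm := final_cls hb c0
    have hs : ∀ c' u', ¬ IsConj c c' → clsR c0 b c' u' = 0 := by
      intro c' u' h
      unfold clsR
      rw [if_neg fun h' => h (hcc.symm.trans h')]
    have hcl : clsR c0 b c [] = b c [] := by
      unfold clsR
      rw [if_pos hcc]
    obtain ⟨hc1, h⟩ := hgood c u hne
    rcases h with ⟨hD, hS⟩ | ⟨hD, h⟩
    · exact stable_zero htf A B hAB hBA hk hm c hc1 hs (by rw [hcl]; exact hD) hS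
    · have hb0 : ∀ c', clsR c0 b c' [] = 0 := by
        intro c'
        by_cases h' : IsConj c c'
        · rw [conj_nil hm h', hcl, hD]
        · exact hs c' [] h'
      rcases h with hF | ⟨p, hp, hF⟩
      · exact fewRoots_zero hm hk hb0 A B hAB hBA c hs hF
      · exact fewPowers_zero hm hk hb0 A B hAB hBA c hs hp hF
  · push Not at hex
    unfold mixedChern
    refine Finset.sum_eq_zero fun m _ => ?_
    have h0 : chern m A B (clsR c0 b) = 0 := by
      unfold chern
      refine wsum_eq_zero_of_support B A (m + 1) Set.univ (fun _ _ _ _ => Set.mem_univ _)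
        (fun _ _ _ _ => Set.mem_univ _) fun w _ _ => ?_
      show clsR c0 b w.prod (verts w) = 0
      unfold clsR
      split_ifs with h
      · exact hex _ _ h
      · rfl
    rw [h0, mul_zero]

/-- For an invertible matrix `A` over the integral group ring of a torsion-free group there is an
element `γ` of the group such that the negative cyclic Chern character of `A` has the same pairing
as that of `γ` with every integral mixed cocycle with good support. -/
theorem topS (htf : ∀ g : Γ, ∀ m : ℕ, 0 < m → g ^ m = 1 → g = 1) (n : ℕ)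
    (A B : Matrix (Fin n) (Fin n) (MonoidAlgebra ℤ Γ)) (hAB : A * B = 1) (hBA : B * A = 1) :
    ∃ γ : Γ, ∀ (k : ℕ) (b : Γ → List Γ → ℤ), IsMixed k b →
      (∀ c u, c ≠ 1 → b c u ≠ 0 →
        (b c [] ≠ 0 ∧ StableCentralizer c) ∨ (b c [] = 0 ∧ (FewRoots c ∨ FewPowers c))) →
      mixedChern k A B b =
        mixedChern k !![MonoidAlgebra.single γ (1 : ℤ)] !![MonoidAlgebra.single γ⁻¹ (1 : ℤ)] b := by
  classical
  obtain ⟨γ, hγ⟩ := top_zero A B
  refine ⟨γ, fun k b hb hsupp => ?_⟩
  obtain ⟨H, A', B', hH, hAB', hBA', hres⟩ := exists_restrict A B hAB hBA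
  set b1 : Γ → List Γ → ℤ := fun c u => if c = 1 then b c u else 0 with hb1
  set b2 : Γ → List Γ → ℤ := fun c u => if c ≠ 1 then b c u else 0 with hb2
  have hP : ∀ x c : Γ, x * c * x⁻¹ = 1 ↔ c = 1 := by
    intro x c
    rw [mul_inv_eq_one, mul_eq_left]
  have hm1 : IsMixed k b1 := mixed_of_classes hb (fun c => c = 1) hP
  have hm2 : IsMixed k b2 := mixed_of_classes hb (fun c => c ≠ 1) (fun x c => not_congr (hP x c))
  have hsum : b = fun c u => b1 c u + b2 c u := by
    funext c u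
    rw [hb1, hb2]
    by_cases hc : c = 1
    · simp [hc]
    · simp [hc]
  have h2 : mixedChern k A B b2 = 0 := by
    have h3 : mixedChern k A B b2 = mixedChern k A' B' (resH H b2) := by
      unfold mixedChern
      refine Finset.sum_congr rfl fun m _ => ?_
      rw [hres]
    rw [h3]
    refine good_zero ?_ A' B' hAB' hBA' (resH_mixed hm2 H) fun c u hcu => ?_
    · intro g m hm hg
      refine Subtype.ext (htf _ m hm ?_)
      have := congrArg Subtype.val hg
      simpa using this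
    have h4 : (c : Γ) ≠ 1 ∧ b (c : Γ) (u.map Subtype.val) ≠ 0 := by
      unfold resH at hcu
      simp only [hb2] at hcu
      by_cases hc : (c : Γ) = 1
      · simp [hc] at hcu
      · rw [if_pos hc] at hcu
        exact ⟨hc, hcu⟩
    have h5 : resH H b2 c [] = b (c : Γ) [] := by
      unfold resH
      simp only [hb2]
      rw [if_pos h4.1]
      rfl
    refine ⟨fun h => h4.1 (by rw [h]; rfl), ?_⟩
    rw [h5]
    rcases hsupp _ _ h4.1 h4.2 with ⟨hD, hS⟩ | ⟨hD, hF | hF⟩
    · refine Or.inl ⟨hD, (hS H hH c.2).mono ?_⟩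
      rintro p ⟨hp, h⟩
      refine ⟨hp, fun x hx => ?_⟩
      have h6 : (x : Γ) * (c : Γ) ^ p = (c : Γ) ^ p * x := by
        have := congrArg Subtype.val hx
        simpa using this
      exact Subtype.ext (h x x.2 h6)
    · refine Or.inr ⟨hD, Or.inl fun v => (hF H hH c.2 v v.2).subset ?_⟩
      rintro q ⟨hq, hqc⟩
      exact ⟨hq, isConj_of_sub hqc⟩
    · obtain ⟨p, hp, hx⟩ := hF H hH c.2
      refine Or.inr ⟨hD, Or.inr ⟨p, hp, fun v => (hx v v.2).subset ?_⟩⟩
      intro i hi
      exact isConj_of_sub hi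
  have hc1 : ∀ c u, c ≠ 1 → b1 c u = 0 := fun c u hc => if_neg hc
  have hM : ∀ m, 0 < m → chern m A B b1 = 0 := fun m hm =>
    top_one htf A B hAB hBA hm1 hc1 m hm
  rw [hsum, mixedChern_add, h2, add_zero, ← hsum]
  unfold mixedChern
  refine Finset.sum_congr rfl fun m _ => ?_
  congr 1
  rcases Nat.eq_zero_or_pos m with rfl | hm
  · rw [hγ k b1 hm1 hc1, top_elem]
    show (if (1 : Γ) = 1 then b 1 _ else 0) = _
    rw [if_pos rfl]
    congr 1
    simp [verts, List.range_succ]
  · rw [hM m hm, top_elem_zero γ hb m hm]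

end main

end Pool.Agent.Lib.MP_8f66f0_al_Stab
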